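import Pool.Agent.W2helper68.DL.Stm2
import Pool.Agent.W2helper10.DL.JobG
import Pool.Agent.W2helper10.DL.JobN

/-!
# Job A of the D0L project: counting of orbits
-/

set_option autoImplicit false

namespace Pool.Agent.W2helper71.DL

open Pool.Agent.W2helper68.DL Finset
open Pool.Agent.W2helper10.DL (G sc sc_pos G_sum G_congr)

/-! ### good functions -/

theorem goodF_congr {f h : ℕ → ℝ} (hf : GoodF f) (e : ∀ n, f n = h n) : GoodF h := by
  obtain ⟨C, C', K, hK⟩ := hf
  exact ⟨C, C', K, fun n hn => by rw [← e]; exact hK n hn⟩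

theorem goodF_bdd {f : ℕ → ℝ} {K : ℝ} (h : ∀ n, |f n| ≤ K) : GoodF f :=
  ⟨0, 0, K, fun n _ => by simpa using h n⟩

theorem goodF_add {f h : ℕ → ℝ} (hf : GoodF f) (hh : GoodF h) : GoodF (fun n => f n + h n) := by
  obtain ⟨C, C', K, hK⟩ := hf
  obtain ⟨D, D', K', hK'⟩ := hh
  refine ⟨C + D, C' + D', K + K', fun n hn => ?_⟩
  have e : f n + h n - ((C + D) * Real.log n + (C' + D') * Real.log (Real.log n)) =
      (f n - (C * Real.log n + C' * Real.log (Real.log n))) +
        (h n - (D * Real.log n + D' * Real.log (Real.log n))) := by ring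
  rw [e]
  exact (abs_add_le _ _).trans (add_le_add (hK n hn) (hK' n hn))

theorem goodF_sum {ι : Type} (s : Finset ι) {f : ι → ℕ → ℝ} (hf : ∀ i ∈ s, GoodF (f i)) :
    GoodF (fun n => ∑ i ∈ s, f i n) := by
  classical
  induction s using Finset.induction_on with
  | empty => exact goodF_bdd (K := 0) (by simp)
  | insert a s ha ih =>
    refine goodF_congr (goodF_add (hf a (by simp)) (ih fun i hi => hf i (by simp [hi])))
      fun n => ?_
    rw [sum_insert ha]

/-! ### iterates of a map on a finite type -/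

theorem exists_idem {T : Type} [Finite T] (g : T → T) :
    ∃ N : ℕ, 1 ≤ N ∧ ∀ τ, g^[N] (g^[N] τ) = g^[N] τ := by
  obtain ⟨i, p, hp, hper⟩ : ∃ i p : ℕ, 1 ≤ p ∧ g^[i] = g^[i + p] := by
    obtain ⟨x, y, hxy, he⟩ := Finite.exists_ne_map_eq_of_infinite (fun n : ℕ => g^[n])
    rcases lt_or_gt_of_ne hxy with h | h
    · exact ⟨x, y - x, by omega, by rw [he]; congr 1; omega⟩
    · exact ⟨y, x - y, by omega, by rw [← he]; congr 1; omega⟩
  have h1 : ∀ n, i ≤ n → g^[n + p] = g^[n] := by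
    intro n hn
    obtain ⟨m, rfl⟩ := Nat.exists_eq_add_of_le hn
    rw [show i + m + p = m + (i + p) by ring, Function.iterate_add, ← hper,
      ← Function.iterate_add, Nat.add_comm]
  have h2 : ∀ k n, i ≤ n → g^[n + k * p] = g^[n] := by
    intro k
    induction k with
    | zero => intro n _; simp
    | succ k ih =>
      intro n hn
      rw [show n + (k + 1) * p = (n + k * p) + p by ring, h1 _ (by omega), ih n hn]
  refine ⟨(i + 1) * p, by nlinarith, fun τ => ?_⟩
  rw [← Function.iterate_add_apply]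
  have h3 := h2 (i + 1) ((i + 1) * p) (by nlinarith)
  rw [h3]

/-! ### orbits -/

theorem orbit_count {α : Type} {X : Set α} {Θ : α → α} (hX : ∀ z ∈ X, Θ z ∈ X)
    (hinj : ∀ z ∈ X, ∀ z' ∈ X, Θ z = Θ z' → z = z') (sz : α → ℕ)
    (hsz : ∀ z ∈ X, sz z < sz (Θ z)) (hR : {z | z ∈ X ∧ ∀ y ∈ X, Θ y ≠ z}.Finite) (P : α → Prop)
    (hP : ∀ z ∈ X, {t : ℕ | P (Θ^[t] z)}.Finite) :
    {z | z ∈ X ∧ P z}.ncard = ∑ z ∈ hR.toFinset, {t : ℕ | P (Θ^[t] z)}.ncard := by
  classical
  have hit : ∀ t : ℕ, ∀ z ∈ X, Θ^[t] z ∈ X := by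
    intro t
    induction t with
    | zero => intro z hz; exact hz
    | succ t ih => intro z hz; rw [Function.iterate_succ_apply]; exact ih _ (hX z hz)
  have hitinj : ∀ t : ℕ, ∀ z ∈ X, ∀ z' ∈ X, Θ^[t] z = Θ^[t] z' → z = z' := by
    intro t
    induction t with
    | zero => intro z _ z' _ h; exact h
    | succ t ih =>
      intro z hz z' hz' h
      rw [Function.iterate_succ_apply, Function.iterate_succ_apply] at h
      exact hinj z hz z' hz' (ih _ (hX z hz) _ (hX z' hz') h)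
  have hcov : ∀ n : ℕ, ∀ z ∈ X, sz z ≤ n → ∃ z₀ ∈ hR.toFinset, ∃ t : ℕ, Θ^[t] z₀ = z := by
    intro n
    induction n with
    | zero =>
      intro z hz hn
      refine ⟨z, ?_, 0, rfl⟩
      rw [Set.Finite.mem_toFinset]
      refine ⟨hz, fun y hy h => ?_⟩
      have := hsz y hy
      rw [h] at this
      omega
    | succ n ih =>
      intro z hz hn
      by_cases hc : ∀ y ∈ X, Θ y ≠ z
      · exact ⟨z, by rw [Set.Finite.mem_toFinset]; exact ⟨hz, hc⟩, 0, rfl⟩
      · push Not at hc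
        obtain ⟨y, hy, hyz⟩ := hc
        have := hsz y hy
        rw [hyz] at this
        obtain ⟨z₀, h1, t, h2⟩ := ih y hy (by omega)
        exact ⟨z₀, h1, t + 1, by rw [Function.iterate_succ_apply', h2, hyz]⟩
  let F : α → Finset ℕ := fun z => if h : {t : ℕ | P (Θ^[t] z)}.Finite then h.toFinset else ∅
  have hF : ∀ z ∈ X, ∀ t, t ∈ F z ↔ P (Θ^[t] z) := by
    intro z hz t
    simp only [F, dif_pos (hP z hz), Set.Finite.mem_toFinset, Set.mem_ofPred_eq]
  have hFc : ∀ z ∈ X, (F z).card = {t : ℕ | P (Θ^[t] z)}.ncard := by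
    intro z hz
    rw [← Set.ncard_coe_finset]
    congr 1
    ext t
    rw [mem_coe, hF z hz]
    rfl
  have hRX : ∀ z ∈ hR.toFinset, z ∈ X ∧ ∀ y ∈ X, Θ y ≠ z := fun z hz => by
    rwa [Set.Finite.mem_toFinset] at hz
  have key : {z | z ∈ X ∧ P z} =
      (((hR.toFinset.sigma F).image (fun p => Θ^[p.2] p.1) : Finset α) : Set α) := by
    ext z
    rw [mem_coe, mem_image]
    constructor
    · rintro ⟨h1, h2⟩
      obtain ⟨z₀, h3, t, h4⟩ := hcov _ z h1 le_rfl
      refine ⟨⟨z₀, t⟩, ?_, h4⟩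
      rw [mem_sigma]
      refine ⟨h3, ?_⟩
      rw [hF _ (hRX _ h3).1]
      simp only [h4]
      exact h2
    · rintro ⟨⟨z₀, t⟩, h1, h2⟩
      rw [mem_sigma] at h1
      simp only at h1 h2
      have h3 := (hRX _ h1.1).1
      rw [hF _ h3] at h1
      rw [← h2]
      exact ⟨hit t _ h3, h1.2⟩
  rw [key, Set.ncard_coe_finset, card_image_of_injOn, card_sigma]
  · exact sum_congr rfl fun z hz => hFc z (hRX z hz).1
  · have aux : ∀ z z' : α, z ∈ hR.toFinset → z' ∈ hR.toFinset → ∀ t s : ℕ, t ≤ s →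
        Θ^[t] z = Θ^[s] z' → z = z' ∧ t = s := by
      intro z z' hz hz' t s hts h
      obtain ⟨m, rfl⟩ := Nat.exists_eq_add_of_le hts
      rw [Function.iterate_add_apply] at h
      have h1 := hitinj t _ (hRX z hz).1 _ (hit m _ (hRX z' hz').1) h
      cases m with
      | zero => exact ⟨h1, rfl⟩
      | succ m =>
        rw [Function.iterate_succ_apply'] at h1
        exact absurd h1.symm ((hRX z hz).2 _ (hit m _ (hRX z' hz').1))
    rintro ⟨z, t⟩ hz ⟨z', s⟩ hz' h
    rw [mem_coe, mem_sigma] at hz hz'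
    simp only at h hz hz'
    rcases le_total t s with hts | hts
    · obtain ⟨h1, h2⟩ := aux z z' hz.1 hz'.1 t s hts h
      subst h1; subst h2; rfl
    · obtain ⟨h1, h2⟩ := aux z' z hz'.1 hz.1 s t hts h.symm
      subst h1; subst h2; rfl

/-! ### the maps -/

section maps

variable {B T : Type} (ψ : B → List B) (g : T → T) (l r : T → List B)

/-- the map on pairs (type, word) -/
def Gm (p : T × List B) : T × List B := (g p.1, l p.1 ++ p.2.flatMap ψ ++ r p.1)

theorem Gm_fst (k : ℕ) (p : T × List B) : ((Gm ψ g l r)^[k] p).1 = g^[k] p.1 := by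
  induction k generalizing p with
  | zero => rfl
  | succ k ih => rw [Function.iterate_succ_apply, ih]; rfl

variable {ψ g l r} {S : T → Set (List B)}

theorem Gm_mem (hf : ∀ τ, ∀ z ∈ S τ, l τ ++ z.flatMap ψ ++ r τ ∈ S (g τ)) (k : ℕ)
    (p : T × List B) (hp : p.2 ∈ S p.1) :
    ((Gm ψ g l r)^[k] p).2 ∈ S ((Gm ψ g l r)^[k] p).1 := by
  induction k generalizing p with
  | zero => exact hp
  | succ k ih => rw [Function.iterate_succ_apply]; exact ih _ (hf _ _ hp)

theorem Gm_inj (hf : ∀ τ, ∀ z ∈ S τ, l τ ++ z.flatMap ψ ++ r τ ∈ S (g τ))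
    (hi : ∀ τ, ∀ z ∈ S τ, ∀ z' ∈ S τ, z.flatMap ψ = z'.flatMap ψ → z = z') (k : ℕ) :
    ∀ τ, ∀ z ∈ S τ, ∀ z' ∈ S τ,
      (Gm ψ g l r)^[k] (τ, z) = (Gm ψ g l r)^[k] (τ, z') → z = z' := by
  induction k with
  | zero => intro τ z _ z' _ h; exact (Prod.mk.inj h).2
  | succ k ih =>
    intro τ z hz z' hz' h
    rw [Function.iterate_succ_apply, Function.iterate_succ_apply] at h
    have h1 := ih (g τ) _ (hf τ z hz) _ (hf τ z' hz') h
    have h2 := List.append_cancel_right h1
    exact hi τ z hz z' hz' (List.append_cancel_left h2)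

theorem flatMap_len_ge (hψ : ∀ b, 2 ≤ (ψ b).length) (z : List B) :
    2 * z.length ≤ (z.flatMap ψ).length := by
  induction z with
  | nil => simp
  | cons b z ih =>
    rw [List.flatMap_cons, List.length_append, List.length_cons]
    have := hψ b
    omega

theorem flatMap_len_le {A : Type} {φ : B → List A} {Λ : ℕ} (hφ : ∀ b, (φ b).length ≤ Λ)
    (z : List B) : (z.flatMap φ).length ≤ Λ * z.length := by
  induction z with
  | nil => simp
  | cons b z ih =>
    rw [List.flatMap_cons, List.length_append, List.length_cons]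
    have := hφ b
    calc (φ b).length + (z.flatMap φ).length ≤ Λ + Λ * z.length := by omega
      _ = _ := by ring

theorem flatMap_len_ge1 {A : Type} {φ : B → List A} (hφ : ∀ b, φ b ≠ []) (z : List B) :
    z.length ≤ (z.flatMap φ).length := by
  induction z with
  | nil => simp
  | cons b z ih =>
    rw [List.flatMap_cons, List.length_append, List.length_cons]
    have := List.length_pos_iff.2 (hφ b)
    omega

theorem Gm_len (hψ : ∀ b, 2 ≤ (ψ b).length) (k : ℕ) (p : T × List B) :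
    2 ^ k * p.2.length ≤ ((Gm ψ g l r)^[k] p).2.length := by
  induction k generalizing p with
  | zero => simp
  | succ k ih =>
    rw [Function.iterate_succ_apply]
    refine le_trans ?_ (ih _)
    have h1 := flatMap_len_ge hψ p.2
    have h2 : 2 * p.2.length ≤ ((Gm ψ g l r) p).2.length := by
      show _ ≤ (l p.1 ++ p.2.flatMap ψ ++ r p.1).length
      rw [List.length_append, List.length_append]
      omega
    calc 2 ^ (k + 1) * p.2.length = 2 ^ k * (2 * p.2.length) := by ring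
      _ ≤ _ := Nat.mul_le_mul_left _ h2

/-- ancestors -/
theorem ancestors [Finite B] [Finite T]
    (hb : ∃ L : ℕ, ∀ τ, ∀ w ∈ S τ, L ≤ w.length →
      ∃ τ' z, g τ' = τ ∧ z ∈ S τ' ∧ w = l τ' ++ z.flatMap ψ ++ r τ') (k : ℕ) :
    ∃ L : ℕ, ∀ τ, ∀ w ∈ S τ, L ≤ w.length →
      ∃ p : T × List B, p.2 ∈ S p.1 ∧ (Gm ψ g l r)^[k] p = (τ, w) := by
  classical
  have := Fintype.ofFinite B
  have := Fintype.ofFinite T
  obtain ⟨L, hL⟩ := hb
  obtain ⟨Λ, hΛ⟩ : ∃ Λ : ℕ, ∀ b, (ψ b).length ≤ Λ :=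
    ⟨∑ b, (ψ b).length, fun b => single_le_sum (f := fun b => (ψ b).length)
      (fun _ _ => Nat.zero_le _) (mem_univ b)⟩
  obtain ⟨c, hc⟩ : ∃ c : ℕ, ∀ τ, (l τ).length + (r τ).length ≤ c :=
    ⟨∑ τ, ((l τ).length + (r τ).length), fun b =>
      single_le_sum (f := fun τ => (l τ).length + (r τ).length)
      (fun _ _ => Nat.zero_le _) (mem_univ b)⟩
  induction k with
  | zero => exact ⟨0, fun τ w hw _ => ⟨(τ, w), hw, rfl⟩⟩
  | succ k ih =>
    obtain ⟨M, hM⟩ := ih
    refine ⟨L + Λ * M + c + 1, fun τ w hw hlen => ?_⟩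
    obtain ⟨τ', z, h1, h2, h3⟩ := hL τ w hw (by omega)
    have h4 : M ≤ z.length := by
      by_contra hcon
      push Not at hcon
      have h5 := flatMap_len_le hΛ z
      have h6 := hc τ'
      have h7 : w.length ≤ Λ * z.length + c := by
        rw [h3, List.length_append, List.length_append]
        omega
      have h8 : Λ * z.length ≤ Λ * M := Nat.mul_le_mul_left _ hcon.le
      omega
    obtain ⟨p, h5, h6⟩ := hM τ' z h2 h4
    refine ⟨p, h5, ?_⟩
    rw [Function.iterate_succ_apply', h6]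
    show (g τ', l τ' ++ z.flatMap ψ ++ r τ') = (τ, w)
    rw [h1, h3]

end maps

/-! ### lengths -/

section lengths

variable {B T : Type} [Fintype B] [Fintype T] [DecidableEq B] [DecidableEq T]
  (ψ : B → List B) (g : T → T) (l r : T → List B)

/-- the incidence matrix of the extended substitution -/
def Mx : B ⊕ T → B ⊕ T → ℕ
  | Sum.inl b, Sum.inl c => (ψ b).count c
  | Sum.inl _, Sum.inr _ => 0
  | Sum.inr τ, Sum.inl c => (l τ ++ r τ).count c
  | Sum.inr τ, Sum.inr τ' => if τ' = g τ then 1 else 0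

omit [Fintype T] [DecidableEq T] in
theorem count_sum (w : List B) (f : B → ℕ) : ∑ c, w.count c * f c = (w.map f).sum := by
  induction w with
  | nil => simp
  | cons b w ih =>
    rw [List.map_cons, List.sum_cons, ← ih]
    simp only [List.count_cons, add_mul, sum_add_distrib]
    rw [add_comm]
    congr 1
    simp

/-- the length of the `k`-th image, plus one -/
def ell (k : ℕ) (p : T × List B) : ℕ :=
  (p.2.map (fun b => len (Mx ψ g l r) k (Sum.inl b))).sum + len (Mx ψ g l r) k (Sum.inr p.1)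

theorem len_inl (k : ℕ) (b : B) : len (Mx ψ g l r) (k + 1) (Sum.inl b) =
    ((ψ b).map (fun b => len (Mx ψ g l r) k (Sum.inl b))).sum := by
  show ∑ c, Mx ψ g l r (Sum.inl b) c * len (Mx ψ g l r) k c = _
  rw [Fintype.sum_sum_type]
  simp only [Mx, zero_mul, sum_const_zero, add_zero]
  exact count_sum _ _

theorem len_inr (k : ℕ) (τ : T) : len (Mx ψ g l r) (k + 1) (Sum.inr τ) =
    ((l τ ++ r τ).map (fun b => len (Mx ψ g l r) k (Sum.inl b))).sum +
      len (Mx ψ g l r) k (Sum.inr (g τ)) := by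
  show ∑ c, Mx ψ g l r (Sum.inr τ) c * len (Mx ψ g l r) k c = _
  rw [Fintype.sum_sum_type]
  simp only [Mx]
  rw [count_sum]
  congr 1
  simp

omit [Fintype B] [DecidableEq B] in
theorem sum_flatMap (f : B → ℕ) (z : List B) :
    ((z.flatMap ψ).map f).sum = (z.map (fun b => ((ψ b).map f).sum)).sum := by
  induction z with
  | nil => simp
  | cons b z ih =>
    rw [List.flatMap_cons, List.map_append, List.sum_append, ih, List.map_cons, List.sum_cons]

theorem ell_succ (k : ℕ) (p : T × List B) :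
    ell ψ g l r (k + 1) p = ell ψ g l r k (Gm ψ g l r p) := by
  unfold ell
  simp only [len_inl, len_inr]
  show _ = ((l p.1 ++ p.2.flatMap ψ ++ r p.1).map _).sum + len (Mx ψ g l r) k (Sum.inr (g p.1))
  simp only [List.map_append, List.sum_append, sum_flatMap]
  ring

theorem ell_eq (k : ℕ) (p : T × List B) :
    ell ψ g l r k p = ((Gm ψ g l r)^[k] p).2.length + 1 := by
  induction k generalizing p with
  | zero =>
    unfold ell
    show (p.2.map (fun _ => 1)).sum + 1 = p.2.length + 1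
    simp
  | succ k ih => rw [ell_succ, ih, Function.iterate_succ_apply]

end lengths

/-! ### growth -/

theorem grow_G {L : ℕ → ℕ} {β : ℝ} {d : ℕ} (hβ : 1 ≤ β) (h : Grow L β d) (h0 : 0 < L 0) :
    G (fun t => (L t : ℝ)) β d := by
  obtain ⟨lo, hi, hlo, hhi, hb⟩ := h
  have hβ0 : 0 < β := by linarith
  have h00 : (0 : ℝ) < L 0 := by exact_mod_cast h0
  refine ⟨min (L 0 : ℝ) (lo / 2 ^ d), max (L 0 : ℝ) hi, lt_min h00 (by positivity),
    lt_max_of_lt_left h00, fun t => ?_⟩
  have hs := sc_pos hβ d t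
  cases t with
  | zero =>
    have e : sc β d 0 = 1 := by unfold sc; simp
    rw [e, mul_one, mul_one]
    exact ⟨min_le_left _ _, le_max_left _ _⟩
  | succ t =>
    obtain ⟨h1, h2⟩ := hb (t + 1) (by omega)
    have h3 : sc β d (t + 1) ≤ 2 ^ d * (((t + 1 : ℕ) : ℝ) ^ d * β ^ (t + 1)) := by
      unfold sc
      rw [← mul_assoc, ← mul_pow]
      refine mul_le_mul_of_nonneg_right (pow_le_pow_left₀ (by positivity) ?_ d) (by positivity)
      push_cast
      linarith [Nat.cast_nonneg (α := ℝ) t]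
    have h4 : ((t + 1 : ℕ) : ℝ) ^ d * β ^ (t + 1) ≤ sc β d (t + 1) := by
      unfold sc
      refine mul_le_mul_of_nonneg_right (pow_le_pow_left₀ (by positivity) ?_ d) (by positivity)
      linarith
    constructor
    · calc min (L 0 : ℝ) (lo / 2 ^ d) * sc β d (t + 1) ≤ lo / 2 ^ d * sc β d (t + 1) :=
            mul_le_mul_of_nonneg_right (min_le_right _ _) hs.le
        _ ≤ lo / 2 ^ d * (2 ^ d * (((t + 1 : ℕ) : ℝ) ^ d * β ^ (t + 1))) :=
            mul_le_mul_of_nonneg_left h3 (by positivity)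
        _ = lo * (((t + 1 : ℕ) : ℝ) ^ d * β ^ (t + 1)) := by field_simp
        _ ≤ _ := h1
    · calc (L (t + 1) : ℝ) ≤ hi * (((t + 1 : ℕ) : ℝ) ^ d * β ^ (t + 1)) := h2
        _ ≤ hi * sc β d (t + 1) := mul_le_mul_of_nonneg_left h4 hhi.le
        _ ≤ _ := mul_le_mul_of_nonneg_right (le_max_right _ _) hs.le

theorem G_grow {L : ℕ → ℕ} {β : ℝ} {d : ℕ} (hβ : 1 ≤ β) (h : G (fun t => (L t : ℝ)) β d) :
    Grow L β d := by
  obtain ⟨lo, hi, hlo, hhi, hb⟩ := h
  have hβ0 : 0 < β := by linarith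
  refine ⟨lo, hi * 2 ^ d, hlo, by positivity, fun t ht => ?_⟩
  obtain ⟨h1, h2⟩ := hb t
  have ht' : (1 : ℝ) ≤ t := by exact_mod_cast ht
  have h3 : sc β d t ≤ 2 ^ d * ((t : ℝ) ^ d * β ^ t) := by
    unfold sc
    rw [← mul_assoc, ← mul_pow]
    refine mul_le_mul_of_nonneg_right (pow_le_pow_left₀ (by positivity) ?_ d) (by positivity)
    linarith
  have h4 : (t : ℝ) ^ d * β ^ t ≤ sc β d t := by
    unfold sc
    refine mul_le_mul_of_nonneg_right (pow_le_pow_left₀ (by positivity) ?_ d) (by positivity)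
    linarith
  constructor
  · exact (mul_le_mul_of_nonneg_left h4 hlo.le).trans h1
  · calc (L t : ℝ) ≤ hi * sc β d t := h2
      _ ≤ hi * (2 ^ d * ((t : ℝ) ^ d * β ^ t)) := mul_le_mul_of_nonneg_left h3 hhi.le
      _ = _ := by ring

theorem G_mul {L : ℕ → ℝ} {β : ℝ} {d N : ℕ} (hβ : 1 ≤ β) (hN : 1 ≤ N) (h : G L β d) :
    G (fun t => L (N * t)) (β ^ N) d := by
  obtain ⟨lo, hi, hlo, hhi, hb⟩ := h
  have hβ0 : 0 < β := by linarith
  have hN' : (1 : ℝ) ≤ N := by exact_mod_cast hN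
  refine ⟨lo, hi * N ^ d, hlo, by positivity, fun t => ?_⟩
  obtain ⟨h1, h2⟩ := hb (N * t)
  have ht : (0 : ℝ) ≤ t := Nat.cast_nonneg t
  have h3 : sc β d (N * t) ≤ N ^ d * sc (β ^ N) d t := by
    unfold sc
    rw [← mul_assoc, ← mul_pow, ← pow_mul]
    refine mul_le_mul_of_nonneg_right (pow_le_pow_left₀ (by positivity) ?_ d) (by positivity)
    push_cast
    nlinarith
  have h4 : sc (β ^ N) d t ≤ sc β d (N * t) := by
    unfold sc
    rw [← pow_mul]
    refine mul_le_mul_of_nonneg_right (pow_le_pow_left₀ (by positivity) ?_ d) (by positivity)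
    push_cast
    nlinarith
  constructor
  · exact (mul_le_mul_of_nonneg_left h4 hlo.le).trans h1
  · calc L (N * t) ≤ hi * sc β d (N * t) := h2
      _ ≤ hi * (N ^ d * sc (β ^ N) d t) := mul_le_mul_of_nonneg_left h3 hhi.le
      _ = _ := by ring

/-- exponential growth forces `β > 1` -/
theorem beta_gt {L : ℕ → ℝ} {β : ℝ} {d : ℕ} (hβ : 1 ≤ β) (h : G L β d)
    (h2 : ∀ t : ℕ, (2 : ℝ) ^ t ≤ L t) : 1 < β := by
  rcases hβ.lt_or_eq with h1 | h1
  · exact h1
  exfalso
  subst h1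
  obtain ⟨lo, hi, hlo, hhi, hb⟩ := h
  have h3 := tendsto_pow_const_mul_const_pow_of_abs_lt_one d (r := (1 / 2 : ℝ))
    (by rw [abs_of_pos (by norm_num)]; norm_num)
  have h4 : ∀ᶠ n : ℕ in Filter.atTop, (n : ℝ) ^ d * (1 / 2 : ℝ) ^ n < 1 / (2 * hi) :=
    h3.eventually (gt_mem_nhds (by positivity))
  obtain ⟨n, hn⟩ := h4.exists_forall_of_atTop
  have h5 := hn (n + 1) (by omega)
  have h6 := h2 n
  have h7 := (hb n).2
  unfold sc at h7
  rw [one_pow, mul_one] at h7
  have h8 : (2 : ℝ) ^ n ≤ hi * ((n : ℝ) + 1) ^ d := h6.trans h7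
  have h9 : ((n + 1 : ℕ) : ℝ) ^ d * (1 / 2 : ℝ) ^ (n + 1) =
      ((n : ℝ) + 1) ^ d / (2 * 2 ^ n) := by
    push_cast
    rw [one_div, inv_pow, pow_succ]
    field_simp
  rw [h9, div_lt_div_iff₀ (by positivity) (by positivity)] at h5
  nlinarith

section growth

variable {B T : Type} [Fintype B] [Fintype T] [DecidableEq B] [DecidableEq T]
  {ψ : B → List B} {g : T → T} {l r : T → List B}

omit [Fintype B] [Fintype T] in
theorem Mx_pos (hψ : ∀ b, 2 ≤ (ψ b).length) : ∀ b, ∃ c, 0 < Mx ψ g l r b c := by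
  rintro (b | τ)
  · have h := hψ b
    cases hw : ψ b with
    | nil => rw [hw] at h; simp at h
    | cons c w =>
      refine ⟨Sum.inl c, ?_⟩
      show 0 < (ψ b).count c
      rw [hw]
      simp
  · exact ⟨Sum.inr (g τ), by simp [Mx]⟩

theorem ell_G (hψ : ∀ b, 2 ≤ (ψ b).length) (p : T × List B) :
    ∃ (β : ℝ) (d : ℕ), 1 ≤ β ∧ G (fun k => (ell ψ g l r k p : ℝ)) β d := by
  have hM := Mx_pos (g := g) (l := l) (r := r) hψ
  have hlen : ∀ b, ∃ (β : ℝ) (d : ℕ), 1 ≤ β ∧ G (fun k => (len (Mx ψ g l r) k b : ℝ)) β d := by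
    intro b
    obtain ⟨β, d, h1, h2⟩ := Pool.Agent.W2helper10.DL.jobG (B ⊕ T) (Mx ψ g l r) hM b
    exact ⟨β, d, h1, grow_G h1 h2 (by
      show 0 < 1
      exact Nat.one_pos)⟩
  obtain ⟨τ, z⟩ := p
  unfold ell
  induction z with
  | nil =>
    obtain ⟨β, d, h1, h2⟩ := hlen (Sum.inr τ)
    refine ⟨β, d, h1, ?_⟩
    simpa using h2
  | cons b z ih =>
    obtain ⟨β, d, h1, h2⟩ := ih
    obtain ⟨β', d', h1', h2'⟩ := hlen (Sum.inl b)
    obtain ⟨b₀, e, h3, h4⟩ := Pool.Agent.W2helper10.DL.G_add h1' h1 h2' h2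
    refine ⟨b₀, e, h3, ?_⟩
    have e1 : (fun k => ((((b :: z).map (fun b => len (Mx ψ g l r) k (Sum.inl b))).sum +
        len (Mx ψ g l r) k (Sum.inr τ) : ℕ) : ℝ)) =
        fun t => (len (Mx ψ g l r) t (Sum.inl b) : ℝ) +
          (((z.map (fun b => len (Mx ψ g l r) t (Sum.inl b))).sum +
            len (Mx ψ g l r) t (Sum.inr τ) : ℕ) : ℝ) := by
      funext k
      rw [List.map_cons, List.sum_cons]
      push_cast
      ring
    rw [e1]
    exact h4

/-- counting of one orbit -/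
theorem one_orbit {A : Type} {φ : B → List A} (hψ : ∀ b, 2 ≤ (ψ b).length)
    (hφ : ∀ b, φ b ≠ []) {N : ℕ} (hN : 1 ≤ N) (p : T × List B) (hp : p.2 ≠ []) (κ : ℕ) :
    (∀ n : ℕ, {t : ℕ | ((((Gm ψ g l r)^[N * t] p).2).flatMap φ).length + κ < n}.Finite) ∧
    GoodF (fun n =>
      ({t : ℕ | ((((Gm ψ g l r)^[N * t] p).2).flatMap φ).length + κ < n}.ncard : ℝ)) := by
  classical
  obtain ⟨Φ, hΦ1, hΦ⟩ : ∃ Φ : ℕ, 1 ≤ Φ ∧ ∀ b, (φ b).length ≤ Φ :=
    ⟨∑ b, (φ b).length + 1, by omega, fun b => by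
      have := single_le_sum (f := fun b => (φ b).length)
        (fun _ _ => Nat.zero_le _) (mem_univ b)
      omega⟩
  obtain ⟨P, hP⟩ : ∃ P : ℕ → ℕ, P = fun t => (((Gm ψ g l r)^[N * t] p).2).length := ⟨_, rfl⟩
  obtain ⟨Q, hQ⟩ : ∃ Q : ℕ → ℕ, Q = fun t =>
      ((((Gm ψ g l r)^[N * t] p).2).flatMap φ).length := ⟨_, rfl⟩
  have hPQ : ∀ t, P t ≤ Q t := fun t => by
    rw [hP, hQ]; exact flatMap_len_ge1 hφ _
  have hQP : ∀ t, Q t ≤ Φ * P t := fun t => by
    rw [hP, hQ]; exact flatMap_len_le hΦ _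
  have hp1 : 1 ≤ p.2.length := List.length_pos_iff.2 hp
  have hPge : ∀ t, 2 ^ (N * t) ≤ P t := fun t => by
    rw [hP]
    refine le_trans ?_ (Gm_len hψ (N * t) p)
    exact Nat.le_mul_of_pos_right _ hp1
  have hP1 : ∀ t, 1 ≤ P t := fun t => le_trans Nat.one_le_two_pow (hPge t)
  have hmono : StrictMono P := by
    refine strictMono_nat_of_lt_succ fun t => ?_
    have h1 := Gm_len (g := g) (l := l) (r := r) hψ N ((Gm ψ g l r)^[N * t] p)
    rw [← Function.iterate_add_apply, show N + N * t = N * (t + 1) by ring] at h1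
    have h2 : 2 ^ N * P t ≤ P (t + 1) := by rw [hP]; exact h1
    have h3 : 2 * P t ≤ 2 ^ N * P t := Nat.mul_le_mul_right _ (by
      calc 2 = 2 ^ 1 := rfl
        _ ≤ 2 ^ N := Nat.pow_le_pow_right (by norm_num) hN)
    have := hP1 t
    omega
  obtain ⟨β, d, hβ, hG⟩ := ell_G (g := g) (l := l) (r := r) hψ p
  have hG1 := G_mul hβ hN hG
  have hβ' : 1 ≤ β ^ N := one_le_pow₀ hβ
  have hell : ∀ t, (ell ψ g l r (N * t) p : ℝ) = (P t : ℝ) + 1 := fun t => by
    rw [ell_eq, hP]
    push_cast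
    rfl
  have hβ1 : 1 < β ^ N := by
    refine beta_gt hβ' hG1 fun t => ?_
    rw [hell]
    have h1 : 2 ^ t ≤ P t := le_trans (Nat.pow_le_pow_right (by norm_num)
      (Nat.le_mul_of_pos_left _ hN)) (hPge t)
    have h2 : ((2 : ℝ)) ^ t ≤ P t := by exact_mod_cast h1
    linarith
  have hκ : (0 : ℝ) ≤ κ := Nat.cast_nonneg κ
  have hΦ' : (1 : ℝ) ≤ Φ := by exact_mod_cast hΦ1
  have hP' : ∀ t, (1 : ℝ) ≤ P t := fun t => by exact_mod_cast hP1 t
  have g1 : Grow (fun t => P t + κ) (β ^ N) d := by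
    refine G_grow hβ' (G_congr hG1 (a := 1 / 2) (b := κ + 1) (by norm_num) (by positivity)
      (fun t => ?_) (fun t => ?_))
    · rw [hell]
      push_cast
      have := hP' t
      linarith
    · rw [hell]
      push_cast
      have := hP' t
      nlinarith
  have g2 : Grow (fun t => Φ * P t + κ) (β ^ N) d := by
    refine G_grow hβ' (G_congr hG1 (a := 1 / 2) (b := Φ + κ) (by norm_num) (by positivity)
      (fun t => ?_) (fun t => ?_))
    · rw [hell]
      push_cast
      have := hP' t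
      nlinarith
    · rw [hell]
      push_cast
      have := hP' t
      nlinarith
  have m1 : StrictMono (fun t => P t + κ) := fun a b hab => by
    have := hmono hab
    simp only
    omega
  have m2 : StrictMono (fun t => Φ * P t + κ) := fun a b hab => by
    have := hmono hab
    have h3 : Φ * P a < Φ * P b := Nat.mul_lt_mul_of_pos_left this hΦ1
    simp only
    omega
  obtain ⟨K1, h1⟩ := Pool.Agent.W2helper10.DL.jobN _ _ _ m1 hβ1 g1
  obtain ⟨K2, h2⟩ := Pool.Agent.W2helper10.DL.jobN _ _ _ m2 hβ1 g2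
  have fin1 : ∀ n : ℕ, {t : ℕ | P t + κ < n}.Finite := fun n => by
    refine (Set.finite_Iio n).subset fun t ht => ?_
    have h3 : t ≤ P t := hmono.le_apply
    have h4 : P t + κ < n := ht
    show t < n
    omega
  have sub1 : ∀ n : ℕ, {t : ℕ | Q t + κ < n} ⊆ {t : ℕ | P t + κ < n} := fun n t ht => by
    have h3 : Q t + κ < n := ht
    have h4 := hPQ t
    show P t + κ < n
    omega
  have sub2 : ∀ n : ℕ, {t : ℕ | Φ * P t + κ < n} ⊆ {t : ℕ | Q t + κ < n} := fun n t ht => by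
    have h3 : Φ * P t + κ < n := ht
    have h4 := hQP t
    show Q t + κ < n
    omega
  have fin2 : ∀ n : ℕ, {t : ℕ | Q t + κ < n}.Finite := fun n => (fin1 n).subset (sub1 n)
  have hres : GoodF (fun n => ({t : ℕ | Q t + κ < n}.ncard : ℝ)) := by
    refine ⟨1 / Real.log (β ^ N), -(d / Real.log (β ^ N)), |K1| + |K2|, fun n hn => ?_⟩
    have h3 := h1 n hn
    have h4 := h2 n hn
    have h5 : ({t : ℕ | Q t + κ < n}.ncard : ℝ) ≤ ({t : ℕ | P t + κ < n}.ncard : ℝ) := by
      exact_mod_cast Set.ncard_le_ncard (sub1 n) (fin1 n)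
    have h6 : ({t : ℕ | Φ * P t + κ < n}.ncard : ℝ) ≤ ({t : ℕ | Q t + κ < n}.ncard : ℝ) := by
      exact_mod_cast Set.ncard_le_ncard (sub2 n) (fin2 n)
    have e : 1 / Real.log (β ^ N) * Real.log n +
        -(d / Real.log (β ^ N)) * Real.log (Real.log n) =
        Real.log n / Real.log (β ^ N) - d / Real.log (β ^ N) * Real.log (Real.log n) := by
      ring
    rw [e]
    rw [abs_le] at h3 h4 ⊢
    have h7 := le_abs_self K1
    have h8 := le_abs_self K2
    have h9 := abs_nonneg K1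
    have h10 := abs_nonneg K2
    constructor
    · linarith [h4.1]
    · linarith [h3.2]
  rw [hQ] at fin2 hres
  exact ⟨fin2, hres⟩

end growth

theorem jobA : JobA := by
  intro A B T _ _ _ _ ψ φ g S l r hψ hφ hf hb hi hne τ κ
  classical
  have := Fintype.ofFinite T
  obtain ⟨N, hN, hidem⟩ := exists_idem g
  obtain ⟨L1, hL1⟩ := ancestors hb N
  obtain ⟨L2, hL2⟩ := ancestors hb (N + N)
  by_cases hτ : g^[N] τ = τ
  · -- the periodic case
    obtain ⟨Θ, hΘ⟩ : ∃ Θ : List B → List B, Θ = fun z => ((Gm ψ g l r)^[N] (τ, z)).2 :=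
      ⟨_, rfl⟩
    have hfst : ∀ z, (Gm ψ g l r)^[N] (τ, z) = (τ, Θ z) := fun z => by
      have h1 := Gm_fst ψ g l r N (τ, z)
      rw [hΘ]
      exact Prod.ext (h1.trans hτ) rfl
    have hit : ∀ (t : ℕ) (z : List B), (Gm ψ g l r)^[N * t] (τ, z) = (τ, Θ^[t] z) := by
      intro t
      induction t with
      | zero => intro z; rfl
      | succ t ih =>
        intro z
        rw [show N * (t + 1) = N * t + N by ring, Function.iterate_add_apply, hfst, ih,
          Function.iterate_succ_apply]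
    have hX : ∀ z ∈ S τ, Θ z ∈ S τ := fun z hz => by
      have h1 := Gm_mem hf N (τ, z) hz
      rw [hfst] at h1
      exact h1
    have hinj : ∀ z ∈ S τ, ∀ z' ∈ S τ, Θ z = Θ z' → z = z' := fun z hz z' hz' h =>
      Gm_inj hf hi N τ z hz z' hz' (by rw [hfst, hfst, h])
    have hnil : ∀ z ∈ S τ, 1 ≤ z.length := fun z hz => by
      refine List.length_pos_iff.2 fun h => ?_
      rw [h] at hz
      exact hne τ hz
    have hsz : ∀ z ∈ S τ, z.length < (Θ z).length := fun z hz => by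
      have h1 := Gm_len (g := g) (l := l) (r := r) hψ N (τ, z)
      rw [hfst] at h1
      have h2 := hnil z hz
      have h3 : 2 * z.length ≤ 2 ^ N * z.length := Nat.mul_le_mul_right _ (by
        calc 2 = 2 ^ 1 := rfl
          _ ≤ 2 ^ N := Nat.pow_le_pow_right (by norm_num) hN)
      simp only at h1
      omega
    have hR : {z | z ∈ S τ ∧ ∀ y ∈ S τ, Θ y ≠ z}.Finite := by
      refine (List.finite_length_lt B L2).subset ?_
      rintro w ⟨hw, hw'⟩
      by_contra hlen
      simp only [Set.mem_ofPred_eq, not_lt] at hlen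
      obtain ⟨p, h1, h2⟩ := hL2 τ w hw hlen
      rw [Function.iterate_add_apply] at h2
      have h3 := Gm_mem hf N p h1
      have h4 : ((Gm ψ g l r)^[N] p).1 = τ := by
        have h5 := congrArg Prod.fst h2
        rw [Gm_fst, Gm_fst] at h5
        rw [Gm_fst, ← hidem, h5]
      rw [h4] at h3
      refine hw' _ h3 ?_
      have h6 : ((Gm ψ g l r)^[N] p) = (τ, ((Gm ψ g l r)^[N] p).2) := Prod.ext h4 rfl
      rw [h6, hfst] at h2
      exact (Prod.mk.inj h2).2
    have hone : ∀ z ∈ S τ, (∀ n : ℕ, {t : ℕ | ((Θ^[t] z).flatMap φ).length + κ < n}.Finite) ∧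
        GoodF (fun n => ({t : ℕ | ((Θ^[t] z).flatMap φ).length + κ < n}.ncard : ℝ)) := by
      intro z hz
      have h1 := one_orbit (g := g) (l := l) (r := r) hψ hφ hN (τ, z) (by
        intro h
        have h' : z = [] := h
        rw [h'] at hz
        exact hne τ hz) κ
      simpa only [hit] using h1
    refine goodF_congr (goodF_sum hR.toFinset fun z hz => (hone z (by
      rw [Set.Finite.mem_toFinset] at hz
      exact hz.1)).2) fun n => ?_
    rw [orbit_count hX hinj List.length hsz hR (fun z => (z.flatMap φ).length + κ < n)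
      (fun z hz => (hone z hz).1 n)]
    push_cast
    rfl
  · -- finitely many words
    have hfin : (S τ).Finite := by
      refine (List.finite_length_lt B L1).subset fun w hw => ?_
      by_contra hlen
      simp only [Set.mem_ofPred_eq, not_lt] at hlen
      obtain ⟨p, h1, h2⟩ := hL1 τ w hw hlen
      apply hτ
      have h5 := congrArg Prod.fst h2
      rw [Gm_fst] at h5
      simp only at h5
      rw [← h5, hidem]
    refine goodF_bdd (K := ((S τ).ncard : ℝ)) fun n => ?_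
    rw [abs_of_nonneg (Nat.cast_nonneg _)]
    have hsub : {z | z ∈ S τ ∧ (z.flatMap φ).length + κ < n} ⊆ S τ := fun z hz => hz.1
    exact_mod_cast Set.ncard_le_ncard hsub hfin

end Pool.Agent.W2helper71.DL
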