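import Pool.Agent.W2helper68.DL.Stm2

/-!
# Job C2 of the D0L project: words which are periodic up to margins
-/

set_option autoImplicit false

namespace Pool.Agent.W2helper71.DL

open Pool.Agent.W2helper68.DL

theorem inU_tail {A : Type} {Q D : ℕ} {w : List A} (h : InU Q D w) : InU Q D w.tail := by
  obtain ⟨q, h1, h2, h3⟩ := h
  refine ⟨q, h1, h2, fun t ht ht' => ?_⟩
  rw [List.length_tail] at ht'
  rw [List.getElem?_tail, List.getElem?_tail]
  have := h3 (t + 1) (by omega) (by omega)
  rw [this]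
  congr 1
  omega

theorem inU_dropLast {A : Type} {Q D : ℕ} {w : List A} (h : InU Q D w) : InU Q D w.dropLast := by
  obtain ⟨q, h1, h2, h3⟩ := h
  refine ⟨q, h1, h2, fun t ht ht' => ?_⟩
  rw [List.length_dropLast] at ht'
  rw [List.getElem?_dropLast, List.getElem?_dropLast, if_pos (by omega), if_pos (by omega)]
  exact h3 t ht (by omega)

theorem inU_bounded {A : Type} [Fintype A] (Q D : ℕ) : ∃ b : ℕ, ∀ n : ℕ,
    {w : List A | InU Q D w ∧ w.length = n}.ncard ≤ b := by
  classical
  let T := Fin (Q + 1) × (Fin (D + Q) → Option A) × (Fin D → Option A)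
  refine ⟨(Set.univ : Set T).ncard, fun n => ?_⟩
  have hq : ∀ w : List A, InU Q D w → ∃ q : Fin (Q + 1), 1 ≤ (q : ℕ) ∧
      ∀ t, D ≤ t → t + q + D < w.length → w[t]? = w[t + q]? := by
    rintro w ⟨q, h1, h2, h3⟩
    exact ⟨⟨q, by omega⟩, h1, h3⟩
  choose! qf hqf using hq
  let f : List A → T := fun w => (qf w, fun i => w[(i : ℕ)]?, fun i => w[n - 1 - (i : ℕ)]?)
  refine Set.ncard_le_ncard_of_injOn f (fun _ _ => Set.mem_univ _) ?_ (Set.toFinite _)
  rintro w ⟨hw, hwn⟩ w' ⟨hw', hwn'⟩ hf
  obtain ⟨h1, h2⟩ := hqf w hw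
  obtain ⟨h1', h2'⟩ := hqf w' hw'
  have e1 : qf w = qf w' := congrArg (fun z : T => z.1) hf
  have e2 : ∀ i : Fin (D + Q), w[(i : ℕ)]? = w'[(i : ℕ)]? := fun i =>
    congrFun (congrArg (fun z : T => z.2.1) hf) i
  have e3 : ∀ i : Fin D, w[n - 1 - (i : ℕ)]? = w'[n - 1 - (i : ℕ)]? := fun i =>
    congrFun (congrArg (fun z : T => z.2.2) hf) i
  have hqQ : (qf w : ℕ) ≤ Q := by
    have := (qf w).2
    omega
  apply List.ext_getElem?
  intro t
  induction t using Nat.strong_induction_on with
  | _ t ih =>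
    by_cases hn : n ≤ t
    · rw [List.getElem?_eq_none (by omega), List.getElem?_eq_none (by omega)]
    · by_cases hc : t < D + Q
      · exact e2 ⟨t, hc⟩
      · by_cases hd : n ≤ t + D
        · have := e3 ⟨n - 1 - t, by omega⟩
          simp only at this
          rwa [show n - 1 - (n - 1 - t) = t by omega] at this
        · have k1 := h2 (t - qf w) (by omega) (by omega)
          have k2 := h2' (t - qf w') (by rw [← e1]; omega) (by rw [← e1]; omega)
          rw [show t - (qf w : ℕ) + (qf w : ℕ) = t by omega] at k1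
          rw [← e1, show t - (qf w : ℕ) + (qf w : ℕ) = t by omega] at k2
          rw [← k1, ← k2]
          exact ih _ (by omega)

theorem inU_finite {A : Type} [Fintype A] (Q D : ℕ) :
    {w : List A | ¬ InU Q D w ∧ InU Q D w.tail ∧ InU Q D w.dropLast}.Finite := by
  refine (List.finite_length_lt A (2 * D + 2 * Q + 2)).subset ?_
  rintro w ⟨h0, ⟨q1, a1, a2, a3⟩, ⟨q2, b1, b2, b3⟩⟩
  by_contra hlen
  simp only [Set.mem_ofPred_eq, not_lt] at hlen
  apply h0
  let y : ℤ → Option A := fun t => w[t.toNat]?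
  have p1 : Per y (q1 : ℤ) (D + 1) (w.length - D) := by
    intro t ht ht'
    have := a3 (t.toNat - 1) (by omega) (by rw [List.length_tail]; omega)
    rw [List.getElem?_tail, List.getElem?_tail] at this
    show w[t.toNat]? = w[(t + q1).toNat]?
    rw [show t.toNat = t.toNat - 1 + 1 by omega, this]
    congr 1
    omega
  have p2 : Per y (q2 : ℤ) D (w.length - 1 - D) := by
    intro t ht ht'
    have := b3 t.toNat (by omega) (by rw [List.length_dropLast]; omega)
    rw [List.getElem?_dropLast, List.getElem?_dropLast, if_pos (by omega), if_pos (by omega)] at this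
    show w[t.toNat]? = w[(t + q2).toNat]?
    rw [this]
    congr 1
    omega
  have p3 := Per.transfer (by exact_mod_cast a1) (by exact_mod_cast b1) p1 p2 (by omega)
  refine ⟨q1, a1, a2, fun t ht ht' => ?_⟩
  have := p3 t (by omega) (by omega)
  have h5 : w[(t : ℤ).toNat]? = w[((t : ℤ) + q1).toNat]? := this
  rwa [show ((t : ℤ) + q1).toNat = t + q1 by omega, Int.toNat_natCast] at h5

theorem jobC2 : JobC2 := by
  intro A _ _ x Q D hQ
  refine ⟨fun w hw => ⟨inU_tail hw, inU_dropLast hw⟩, ?_, ?_⟩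
  · obtain ⟨b, hb⟩ := inU_bounded (A := A) Q D
    refine ⟨b, fun n => (Set.ncard_le_ncard ?_ ?_).trans (hb n)⟩
    · rintro w ⟨_, h1, h2⟩
      exact ⟨h1, h2⟩
    · exact (List.finite_length_eq A n).subset fun w hw => hw.2
  · refine (inU_finite (A := A) Q D).subset ?_
    rintro w ⟨_, h1, h2, h3⟩
    exact ⟨h1, h2, h3⟩

end Pool.Agent.W2helper71.DL
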