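import Pool.Agent.W2helper68.DL.Stm2

/-!
# Job C of the D0L project: the counting identity
-/

set_option autoImplicit false

namespace Pool.Agent.W2helper71.DL

open Pool.Agent.W2helper68.DL Finset

section
variable {A : Type}

theorem wd_length (x : ℤ → A) (i : ℤ) (n : ℕ) : (wd x i n).length = n := by
  simp [wd]

theorem wd_getElem (x : ℤ → A) (i : ℤ) (n t : ℕ) (h : t < (wd x i n).length) :
    (wd x i n)[t] = x (i + t) := by
  simp [wd]

theorem lang_iff {x : ℤ → A} {w : List A} :
    w ∈ Lang x ↔ ∃ i : ℤ, ∀ (t : ℕ) (h : t < w.length), x (i + t) = w[t] := by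
  constructor
  · rintro ⟨i, hi⟩
    refine ⟨i, fun t h => ?_⟩
    have h1 : t < (wd x i w.length).length := by rw [hi]; exact h
    have h2 : (wd x i w.length)[t] = w[t] := by
      simp only [hi]
    rw [← h2, wd_getElem]
  · rintro ⟨i, hi⟩
    refine ⟨i, ?_⟩
    apply List.ext_getElem
    · rw [wd_length]
    · intro t h1 h2
      rw [wd_getElem]
      exact hi t h2

theorem lang_tail {x : ℤ → A} {w : List A} (h : w ∈ Lang x) : w.tail ∈ Lang x := by
  rw [lang_iff] at h ⊢
  obtain ⟨i, hi⟩ := h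
  refine ⟨i + 1, fun t ht => ?_⟩
  rw [List.length_tail] at ht
  rw [List.getElem_tail, ← hi (t + 1) (by omega)]
  congr 1
  push_cast
  ring

theorem lang_dropLast {x : ℤ → A} {w : List A} (h : w ∈ Lang x) : w.dropLast ∈ Lang x := by
  rw [lang_iff] at h ⊢
  obtain ⟨i, hi⟩ := h
  refine ⟨i, fun t ht => ?_⟩
  rw [List.length_dropLast] at ht
  rw [List.getElem_dropLast, ← hi t (by omega)]

variable [Fintype A]

theorem mem_LF {x : ℤ → A} {n : ℕ} {w : List A} : w ∈ LF x n ↔ w ∈ Lang x ∧ w.length = n := by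
  classical
  unfold LF
  simp only [mem_filter, mem_image, mem_univ, true_and]
  constructor
  · rintro ⟨⟨f, rfl⟩, h⟩
    exact ⟨h, List.length_ofFn⟩
  · rintro ⟨h, rfl⟩
    exact ⟨⟨w.get, List.ofFn_get w⟩, h⟩

open Classical in
/-- the words of the language of length `n` in `U` -/
noncomputable def PU (x : ℤ → A) (U : Set (List A)) (n : ℕ) : ℕ := ((LF x n).filter (· ∈ U)).card

open Classical in
/-- words of length `n` with `tail` in `U` -/
noncomputable def PT (x : ℤ → A) (U : Set (List A)) (n : ℕ) : ℕ :=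
  ((LF x n).filter (fun v => v.tail ∈ U)).card

open Classical in
/-- words of length `n` with `dropLast` in `U` -/
noncomputable def PD (x : ℤ → A) (U : Set (List A)) (n : ℕ) : ℕ :=
  ((LF x n).filter (fun v => v.dropLast ∈ U)).card

open Classical in
/-- words of length `n` with inner word in `U` -/
noncomputable def PI (x : ℤ → A) (U : Set (List A)) (n : ℕ) : ℕ :=
  ((LF x n).filter (fun v => v.tail.dropLast ∈ U)).card

theorem sum_left (x : ℤ → A) (U : Set (List A)) (m : ℕ) [DecidablePred (· ∈ U)] :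
    ∑ w ∈ (LF x m).filter (· ∈ U), ({a : A | a :: w ∈ Lang x}.ncard) = PT x U (m + 1) := by
  classical
  unfold PT
  rw [card_eq_sum_card_fiberwise (f := List.tail) (t := (LF x m).filter (· ∈ U))]
  · refine sum_congr rfl fun w hw => ?_
    rw [mem_filter, mem_LF] at hw
    have hinj : Function.Injective (fun a : A => a :: w) := fun a b h => (List.cons.inj h).1
    rw [← Set.ncard_image_of_injective _ hinj, ← Set.ncard_coe_finset]
    congr 1
    ext v
    simp only [Set.mem_image, Set.mem_ofPred_eq, mem_coe, mem_filter, mem_LF]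
    constructor
    · rintro ⟨a, h1, rfl⟩
      refine ⟨⟨⟨h1, ?_⟩, ?_⟩, ?_⟩
      · rw [List.length_cons, hw.1.2]
      · rw [List.tail_cons]; exact hw.2
      · rw [List.tail_cons]
    · rintro ⟨⟨⟨h1, h2⟩, h3⟩, h4⟩
      cases v with
      | nil => simp at h2
      | cons a v =>
        rw [List.tail_cons] at h4
        exact ⟨a, by rw [← h4]; exact h1, by rw [h4]⟩
  · intro v hv
    simp only [mem_coe, mem_filter, mem_LF] at hv ⊢
    refine ⟨⟨lang_tail hv.1.1, ?_⟩, hv.2⟩
    rw [List.length_tail, hv.1.2]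
    rfl

theorem sum_right (x : ℤ → A) (U : Set (List A)) (m : ℕ) [DecidablePred (· ∈ U)] :
    ∑ w ∈ (LF x m).filter (· ∈ U), ({b : A | w ++ [b] ∈ Lang x}.ncard) = PD x U (m + 1) := by
  classical
  unfold PD
  rw [card_eq_sum_card_fiberwise (f := List.dropLast) (t := (LF x m).filter (· ∈ U))]
  · refine sum_congr rfl fun w hw => ?_
    rw [mem_filter, mem_LF] at hw
    have hinj : Function.Injective (fun a : A => w ++ [a]) := fun a b h => by
      simpa using h
    rw [← Set.ncard_image_of_injective _ hinj, ← Set.ncard_coe_finset]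
    congr 1
    ext v
    simp only [Set.mem_image, Set.mem_ofPred_eq, mem_coe, mem_filter, mem_LF]
    constructor
    · rintro ⟨a, h1, rfl⟩
      refine ⟨⟨⟨h1, ?_⟩, ?_⟩, ?_⟩
      · rw [List.length_append, hw.1.2, List.length_singleton]
      · rw [List.dropLast_concat]; exact hw.2
      · rw [List.dropLast_concat]
    · rintro ⟨⟨⟨h1, h2⟩, h3⟩, h4⟩
      have hv : v ≠ [] := by
        rintro rfl
        simp at h2
      have h5 := List.dropLast_append_getLast hv
      rw [h4] at h5
      exact ⟨v.getLast hv, by rw [h5]; exact h1, h5⟩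
  · intro v hv
    simp only [mem_coe, mem_filter, mem_LF] at hv ⊢
    refine ⟨⟨lang_dropLast hv.1.1, ?_⟩, hv.2⟩
    rw [List.length_dropLast, hv.1.2]
    rfl

theorem sum_both (x : ℤ → A) (U : Set (List A)) (m : ℕ) [DecidablePred (· ∈ U)] :
    ∑ w ∈ (LF x m).filter (· ∈ U), ({p : A × A | p.1 :: (w ++ [p.2]) ∈ Lang x}.ncard) =
      PI x U (m + 2) := by
  classical
  unfold PI
  rw [card_eq_sum_card_fiberwise (f := fun v => v.tail.dropLast) (t := (LF x m).filter (· ∈ U))]
  · refine sum_congr rfl fun w hw => ?_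
    rw [mem_filter, mem_LF] at hw
    have hinj : Function.Injective (fun p : A × A => p.1 :: (w ++ [p.2])) := by
      rintro ⟨a, b⟩ ⟨c, d⟩ h
      simp only [List.cons.injEq, List.append_cancel_left_eq] at h
      simp [h.1, h.2]
    rw [← Set.ncard_image_of_injective _ hinj, ← Set.ncard_coe_finset]
    congr 1
    ext v
    simp only [Set.mem_image, Set.mem_ofPred_eq, mem_coe, mem_filter, mem_LF]
    constructor
    · rintro ⟨⟨a, b⟩, h1, rfl⟩
      refine ⟨⟨⟨h1, ?_⟩, ?_⟩, ?_⟩
      · rw [List.length_cons, List.length_append, hw.1.2, List.length_singleton]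
      · rw [List.tail_cons, List.dropLast_concat]; exact hw.2
      · rw [List.tail_cons, List.dropLast_concat]
    · rintro ⟨⟨⟨h1, h2⟩, h3⟩, h4⟩
      cases v with
      | nil => simp at h2
      | cons a v =>
        rw [List.tail_cons] at h4 h3
        have hv : v ≠ [] := by
          rintro rfl
          simp at h2
        have h5 := List.dropLast_append_getLast hv
        rw [h4] at h5
        exact ⟨(a, v.getLast hv), by simp only [h5]; exact h1, by simp only [h5]⟩
  · intro v hv
    simp only [mem_coe, mem_filter, mem_LF] at hv ⊢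
    refine ⟨⟨lang_dropLast (lang_tail hv.1.1), ?_⟩, hv.2⟩
    rw [List.length_dropLast, List.length_tail, hv.1.2]
    rfl

theorem sum_mm (x : ℤ → A) (U : Set (List A)) (m : ℕ) [DecidablePred (· ∈ U)] :
    ∑ w ∈ (LF x m).filter (· ∈ U), mm x w =
      (PI x U (m + 2) : ℤ) - PT x U (m + 1) - PD x U (m + 1) + PU x U m := by
  classical
  unfold mm
  rw [sum_add_distrib, sum_sub_distrib, sum_sub_distrib, ← sum_left, ← sum_right, ← sum_both]
  unfold PU
  push_cast
  congr 1
  rw [sum_const, nsmul_one]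
  congr 2
  ext v
  simp

variable {x : ℤ → A} {U : Set (List A)}

open Classical in
/-- words of length `n` outside `U` with `tail` and `dropLast` in `U` -/
noncomputable def TT (x : ℤ → A) (U : Set (List A)) (n : ℕ) : ℕ :=
  ((LF x n).filter (fun v => v ∉ U ∧ v.tail ∈ U ∧ v.dropLast ∈ U)).card

open Classical in
/-- words of length `n` in `Tri` -/
noncomputable def TR (x : ℤ → A) (U : Set (List A)) (n : ℕ) : ℕ :=
  ((LF x n).filter (fun v => v ∉ U ∧ v.tail ∉ U ∧ v.dropLast ∉ U ∧ v.tail.dropLast ∈ U)).card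

omit [Fintype A] in
theorem tail_dropLast (v : List A) : v.tail.dropLast = v.dropLast.tail := by
  cases v with
  | nil => rfl
  | cons a v =>
    cases v with
    | nil => rfl
    | cons b v => rfl

/-- inclusion and exclusion -/
theorem incl_excl (hU : ∀ w ∈ U, w.tail ∈ U ∧ w.dropLast ∈ U) (n : ℕ) :
    PI x U n + TT x U n + PU x U n = PT x U n + PD x U n + TR x U n := by
  classical
  unfold PI TT PU PT PD TR
  simp only [card_filter, ← sum_add_distrib]
  refine sum_congr rfl fun v _ => ?_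
  have e1 : v ∈ U → v.tail ∈ U := fun h => (hU v h).1
  have e2 : v ∈ U → v.dropLast ∈ U := fun h => (hU v h).2
  have e3 : v.tail ∈ U → v.tail.dropLast ∈ U := fun h => (hU _ h).2
  have e4 : v.dropLast ∈ U → v.tail.dropLast ∈ U := fun h => by
    rw [tail_dropLast]
    exact (hU _ h).1
  by_cases h0 : v ∈ U
  · simp [h0, e1 h0, e2 h0, e3 (e1 h0)]
  · by_cases h1 : v.tail ∈ U
    · by_cases h2 : v.dropLast ∈ U
      · simp [h0, h1, h2, e3 h1]
      · simp [h0, h1, h2, e3 h1]
    · by_cases h2 : v.dropLast ∈ U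
      · simp [h0, h1, h2, e4 h2]
      · by_cases h3 : v.tail.dropLast ∈ U
        · simp [h0, h1, h2, h3]
        · simp [h0, h1, h2, h3]

theorem sum_mm' (hU : ∀ w ∈ U, w.tail ∈ U ∧ w.dropLast ∈ U) (m : ℕ)
    [DecidablePred (· ∈ U)] :
    ∑ w ∈ (LF x m).filter (· ∈ U), mm x w =
      ((PT x U (m + 2) : ℤ) - PT x U (m + 1)) + ((PD x U (m + 2) : ℤ) - PD x U (m + 1))
        - ((PU x U (m + 2) : ℤ) - PU x U m) + TR x U (m + 2) - TT x U (m + 2) := by
  rw [sum_mm]
  have := incl_excl (x := x) hU (m + 2)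
  zify at this
  linarith

theorem tele (f : ℕ → ℤ) (n : ℕ) : ∑ m ∈ range n, (f (m + 1) - f m) = f n - f 0 :=
  sum_range_sub f n

/-- the sum over all words of `U` of length less than `n` -/
theorem sum_U (hU : ∀ w ∈ U, w.tail ∈ U ∧ w.dropLast ∈ U) (n : ℕ)
    [DecidablePred (· ∈ U)] :
    ∑ m ∈ range n, ∑ w ∈ (LF x m).filter (· ∈ U), mm x w =
      ((PT x U (n + 1) : ℤ) - PT x U 1) + ((PD x U (n + 1) : ℤ) - PD x U 1)
        - ((PU x U (n + 1) : ℤ) + PU x U n - PU x U 1 - PU x U 0)
        + ∑ m ∈ range n, (TR x U (m + 2) : ℤ) - ∑ m ∈ range n, (TT x U (m + 2) : ℤ) := by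
  induction n with
  | zero => simp
  | succ n ih =>
    rw [sum_range_succ, ih, sum_mm' hU, sum_range_succ, sum_range_succ]
    ring_nf

/-- the sum over all words of length less than `n` -/
theorem sum_all (x : ℤ → A) (n : ℕ) : ∑ m ∈ range n, ∑ w ∈ LF x m, mm x w =
    (((LF x (n + 1)).card : ℤ) - (LF x n).card) - (((LF x 1).card : ℤ) - (LF x 0).card) := by
  classical
  have h1 : ∀ m, ∑ w ∈ LF x m, mm x w =
      (((LF x (m + 1 + 1)).card : ℤ) - (LF x (m + 1)).card) -
        (((LF x (m + 1)).card : ℤ) - (LF x m).card) := by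
    intro m
    have h2 := sum_mm x Set.univ m
    unfold PI PT PD PU at h2
    simp only [Set.mem_univ, filter_true] at h2
    rw [h2]
    ring
  rw [sum_congr rfl fun m _ => h1 m]
  exact sum_range_sub (fun m => ((LF x (m + 1)).card : ℤ) - (LF x m).card) n

theorem PT_le (x : ℤ → A) (U : Set (List A)) (n : ℕ) :
    PT x U (n + 1) ≤ Fintype.card A * PU x U n := by
  classical
  rw [← sum_left]
  unfold PU
  rw [mul_comm]
  refine sum_le_card_nsmul _ _ _ fun w _ => ?_
  rw [← Nat.card_eq_fintype_card, ← Set.ncard_univ]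
  exact Set.ncard_le_ncard (Set.subset_univ _) (Set.toFinite _)

theorem PD_le (x : ℤ → A) (U : Set (List A)) (n : ℕ) :
    PD x U (n + 1) ≤ Fintype.card A * PU x U n := by
  classical
  rw [← sum_right]
  unfold PU
  rw [mul_comm]
  refine sum_le_card_nsmul _ _ _ fun w _ => ?_
  rw [← Nat.card_eq_fintype_card, ← Set.ncard_univ]
  exact Set.ncard_le_ncard (Set.subset_univ _) (Set.toFinite _)

theorem PI_le (x : ℤ → A) (U : Set (List A)) (n : ℕ) :
    PI x U (n + 2) ≤ Fintype.card (A × A) * PU x U n := by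
  classical
  rw [← sum_both]
  unfold PU
  rw [mul_comm]
  refine sum_le_card_nsmul _ _ _ fun w _ => ?_
  rw [← Nat.card_eq_fintype_card, ← Set.ncard_univ]
  exact Set.ncard_le_ncard (Set.subset_univ _) (Set.toFinite _)

theorem TR_le (x : ℤ → A) (U : Set (List A)) (n : ℕ) : TR x U n ≤ PI x U n := by
  classical
  unfold TR PI
  refine card_le_card fun v hv => ?_
  rw [mem_filter] at hv ⊢
  exact ⟨hv.1, hv.2.2.2.2⟩

/-- the union over the lengths -/
theorem disj {x : ℤ → A} {P : List A → Prop} [DecidablePred P] {n m : ℕ} (h : n ≠ m) :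
    Disjoint ((LF x n).filter P) ((LF x m).filter P) := by
  rw [Finset.disjoint_left]
  intro v h1 h2
  rw [mem_filter, mem_LF] at h1 h2
  omega

theorem jobC : JobC := by
  classical
  intro A _ _ x U hU hb hfin
  obtain ⟨b, hb⟩ := hb
  have hPU : ∀ n, PU x U n ≤ b := by
    intro n
    refine le_trans (le_of_eq ?_) (hb n)
    unfold PU
    rw [← Set.ncard_coe_finset]
    congr 1
    ext v
    simp only [mem_coe, mem_filter, mem_LF, Set.mem_ofPred_eq]
    tauto
  obtain ⟨NT, hNT⟩ : ∃ NT : ℕ, ∀ n, ∑ m ∈ range n, TT x U (m + 2) ≤ NT := by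
    refine ⟨hfin.toFinset.card, fun n => ?_⟩
    unfold TT
    rw [← card_biUnion (fun a _ c _ hac => disj (by omega))]
    refine card_le_card fun v hv => ?_
    rw [mem_biUnion] at hv
    obtain ⟨m, _, hv⟩ := hv
    rw [mem_filter, mem_LF] at hv
    rw [Set.Finite.mem_toFinset]
    exact ⟨hv.1.1, hv.2⟩
  have hTR : ∀ n, TR x U n ≤ Fintype.card (A × A) * b + TR x U 0 + TR x U 1 := by
    intro n
    rcases n with _ | _ | n
    · omega
    · show TR x U 1 ≤ _
      omega
    · have h1 := TR_le x U (n + 2)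
      have h2 := PI_le x U n
      have h3 : Fintype.card (A × A) * PU x U n ≤ Fintype.card (A × A) * b :=
        Nat.mul_le_mul_left _ (hPU n)
      show TR x U (n + 2) ≤ _
      omega
  refine ⟨|((LF x 1).card : ℤ) - (LF x 0).card| + 2 * (Fintype.card A * b) + PT x U 1 + PD x U 1
    + 4 * b + 2 * (Fintype.card (A × A) * b + TR x U 0 + TR x U 1) + NT, fun n V hV => ?_⟩
  have hVs : ∑ w ∈ V, mm x w = ∑ m ∈ range n, ∑ w ∈ (LF x m).filter (· ∉ U), mm x w := by
    rw [← sum_biUnion (fun a _ c _ hac => disj hac)]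
    refine sum_congr ?_ fun _ _ => rfl
    ext v
    rw [hV, mem_biUnion]
    simp only [mem_range, mem_filter, mem_LF]
    constructor
    · rintro ⟨h1, h2, h3⟩
      exact ⟨v.length, h3, ⟨h1, rfl⟩, h2⟩
    · rintro ⟨m, h1, ⟨h2, h3⟩, h4⟩
      exact ⟨h2, h4, by omega⟩
  have hTs : (({w | w ∈ Tri x U ∧ w.length < n}.ncard : ℕ) : ℤ) =
      ∑ m ∈ range n, (TR x U m : ℤ) := by
    unfold TR
    rw [← Nat.cast_sum, ← card_biUnion (fun a _ c _ hac => disj hac), ← Set.ncard_coe_finset]
    congr 2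
    ext v
    rw [mem_coe, mem_biUnion]
    simp only [mem_range, mem_filter, mem_LF, Set.mem_ofPred_eq, Tri]
    constructor
    · rintro ⟨⟨h1, h2⟩, h3⟩
      exact ⟨v.length, h3, ⟨h1, rfl⟩, h2⟩
    · rintro ⟨m, h1, ⟨h2, h3⟩, h4⟩
      exact ⟨⟨h2, h4⟩, by omega⟩
  have hsplit : ∑ m ∈ range n, ∑ w ∈ LF x m, mm x w =
      ∑ m ∈ range n, ∑ w ∈ (LF x m).filter (· ∈ U), mm x w +
        ∑ m ∈ range n, ∑ w ∈ (LF x m).filter (· ∉ U), mm x w := by
    rw [← sum_add_distrib]
    exact sum_congr rfl fun m _ => (sum_filter_add_sum_filter_not _ _ _).symm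
  rw [sum_all, sum_U hU] at hsplit
  have hshift : ∑ m ∈ range n, (TR x U (m + 2) : ℤ) =
      ∑ m ∈ range n, (TR x U m : ℤ) + TR x U n + TR x U (n + 1) - TR x U 0 - TR x U 1 := by
    clear hV hVs hTs hsplit
    induction n with
    | zero => simp
    | succ n ih =>
      rw [sum_range_succ, ih, sum_range_succ]
      ring_nf
  rw [hVs, hTs]
  have h1 := hTR n
  have h2 := hTR (n + 1)
  have h3 : PT x U (n + 1) ≤ Fintype.card A * b :=
    (PT_le x U n).trans (Nat.mul_le_mul_left _ (hPU n))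
  have h4 : PD x U (n + 1) ≤ Fintype.card A * b :=
    (PD_le x U n).trans (Nat.mul_le_mul_left _ (hPU n))
  have h5 := hPU (n + 1)
  have h6 := hPU n
  have h7 := hPU 1
  have h8 := hPU 0
  have h9 := hNT n
  have g0 : ∑ m ∈ range n, (TT x U (m + 2) : ℤ) =
      ((∑ m ∈ range n, TT x U (m + 2) : ℕ) : ℤ) := by push_cast; rfl
  rw [hshift, g0] at hsplit
  rw [abs_le]
  generalize ∑ m ∈ range n, TT x U (m + 2) = y1 at *
  generalize ∑ m ∈ range n, (TR x U m : ℤ) = y2 at *
  generalize ∑ m ∈ range n, ∑ w ∈ (LF x m).filter (· ∉ U), mm x w = y3 at *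
  have g1 := neg_abs_le (((LF x 1).card : ℤ) - (LF x 0).card)
  have g2 := le_abs_self (((LF x 1).card : ℤ) - (LF x 0).card)
  generalize |((LF x 1).card : ℤ) - (LF x 0).card| = y4 at *
  rw [← Nat.cast_mul, ← Nat.cast_mul]
  generalize Fintype.card A * b = y5 at *
  generalize Fintype.card (A × A) * b = y6 at *
  constructor
  · omega
  · omega

end

end Pool.Agent.W2helper71.DL
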